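import Pool.Agent.Results.MP_eeb1a4_ag.CodimensionsNearDegenerate

/-!
# CM points near degenerate fibres of all variations of mixed Hodge structure

The conjecture (Q1) says that the CM points of a variation of mixed Hodge structure over `S` are not Zariski dense, except if it is
of Shimura type and the period map is dominant. We consider **all** variations given by families of bounded degree and height
over open parts of affine spaces of any dimension `m` over `ℚ`, with a possibly degenerate fibre over `0`, the mixed Hodge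
structures `V_j` at the rational points `a_j / b_j` near `0`, and another mixed Hodge structure `V_0`; the conditions
(`Fibres.Valid`) are those of `CodimensionsNearDegenerate` (MP_eeb1a4_ag).

`V_0 ⊕ V_1 ⊕ … ⊕ V_N` is of CM type if its Mumford–Tate group is a torus: then the Lie algebra `𝔥` of this group is a rational
commutative Lie algebra which contains the Hodge operator. We prove that **the dimensions of the period domains of the monodromy
(`dim 𝔪^-`) at separated tuples of CM points have a sum of at most `s + 1` (up to `ℓ` for each tuple)**: part 1. So for each `r ≥ ℓ` CM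
points with `dim 𝔪^- > r` have at most `M ⌊(s + 1) / (r + 1 - ℓ)⌋` denominators in each window, up to their neighbours (part 2),
and there are none at all if `s + 1 + ℓ < dim 𝔪^-` (take `r = s + 1 + ℓ`), for all these variations, limits and points at the
same time. The number of `b ≤ B` which are the denominators of CM points with `dim 𝔪^- > ℓ` is `O(B^(1 - 1/k))` (part 3).

The library theorem `MixedCM` is for the points `1 / t` of one one-parameter variation with a graded piece of Calabi–Yau type,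
maximally unipotent at `0`. `FewCMFibresNearDegenerate` (MP_2794d1_ag) is for pure variations, with the exceptional sets for
`r = ℓ = 0` only.

Proof: `CodimensionAtMost` for the commutative Lie algebra `𝔥` (MP_eeb1a4_ag); the elements of `𝔥` commute with the Hodge operator,
so they have degree `0`, and `𝔥 ∩ 𝔪^- = 0`.
-/

set_option autoImplicit false

open scoped Matrix

namespace Pool.Agent.Results.MP_cb3775_ag.CMPointsNearDegenerate

open Pool.Agent.Results.MP_eeb1a4_ag.CodimensionsNearDegenerate (Fibres Fibres.periods Fibres.Valid Fibres.CodimensionAtMost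
  Separated Far total conjugate inBlocks negatives Splits IsRational IsLie)

/-- **CM points.** If the tuple is of CM type relative to `V_0`, that is, if some rational commutative Lie algebra `𝔥` contains the
Hodge operator `φ₀ ⊕ φ_1 ⊕ … ⊕ φ_N` of `V_0 ⊕ V_1 ⊕ … ⊕ V_N` (for example the Lie algebra of the Mumford–Tate group if this
group is a torus), then for each subspace `𝔪` of `C 𝔤 C⁻¹` (the Lie algebra of the monodromy group) the part `𝔪^-` of negative
degree has dimension at most `r`. -/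
def CMAtMost {m n N r₀ ℓ : ℕ} (lev₀ : Fin r₀ → ℤ) (lev : Fin N → Fin n → ℤ) (r : ℕ) (x : Fibres m n N r₀ ℓ) : Prop :=
  ∀ (φ₀ : Matrix (Fin r₀) (Fin r₀) ℂ) (φ : Fin N → Matrix (Fin n) (Fin n) ℂ)
    (𝔪 : Submodule ℂ (Fin N → Matrix (Fin n) (Fin n) ℂ))
    (𝔥 : Submodule ℂ (Matrix (Fin r₀ ⊕ (Fin n × Fin N)) (Fin r₀ ⊕ (Fin n × Fin N)) ℂ)),
    Splits lev₀ x.C₀ φ₀ → (∀ j, Splits (lev j) (x.periods j) (φ j)) → 𝔪 ≤ conjugate x.C x.𝔤 → IsRational 𝔥 →
    (∀ X ∈ 𝔥, ∀ Y ∈ 𝔥, X * Y = Y * X) → total φ₀ φ ∈ 𝔥 → Module.finrank ℂ (negatives 𝔪 φ) ≤ r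

/-- the denominators `b ≤ B` of the tuples of points `a_j / b` which satisfy the conditions (for the window `{b}`) and which are of CM
type with `dim 𝔪^- > ℓ` -/
def denominators {s : ℕ} (m n N r₀ ℓ : ℕ) (q e : ℕ) (lev₀ : Fin r₀ → ℤ) (lev : Fin N → Fin n → ℤ) (β : Fin s → ℂ) (H : ℝ)
    (h B : ℕ) : Set ℕ :=
  {b | b ≤ B ∧ ∃ x : Fibres m n N r₀ ℓ, x.Valid q 1 e β H h 0 b ∧ (∀ j, x.b j = b) ∧ ¬ CMAtMost lev₀ lev ℓ x}

theorem cm_of_cod {m n N r₀ ℓ r : ℕ} {lev₀ : Fin r₀ → ℤ} {lev : Fin N → Fin n → ℤ} {x : Fibres m n N r₀ ℓ}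
    (h : x.CodimensionAtMost lev₀ lev r) : CMAtMost lev₀ lev r x := by
  intro φ₀ φ 𝔪 𝔥 h0 hsp hm hr hcomm hφ
  have h1 := h φ₀ φ 𝔪 𝔥 h0 hsp hm hr (fun X hX Y hY => by
    rw [hcomm X hX Y hY, sub_self]
    exact 𝔥.zero_mem) hφ
  have h2 : (negatives 𝔪 φ ⊓ inBlocks 𝔥 : Submodule ℂ (Fin N → Matrix (Fin n) (Fin n) ℂ)) = ⊥ := by
    rw [Submodule.eq_bot_iff]
    rintro X ⟨hX1, hX2⟩
    have hX2' : total 0 X ∈ 𝔥 := hX2
    have h3 := hcomm _ hφ _ hX2'
    have h4 : ∀ j, φ j * X j = X j * φ j := by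
      intro j
      have h5 : total φ₀ φ * total 0 X = total (φ₀ * 0) (fun j => φ j * X j) := Pool.Agent.Helper880_R3.Tot_mul _ _ _ _
      have h6 : total 0 X * total φ₀ φ = total (0 * φ₀) (fun j => X j * φ j) := Pool.Agent.Helper880_R3.Tot_mul _ _ _ _
      rw [h5, h6] at h3
      ext i k
      have h7 := congrFun (congrFun h3 (Sum.inr (i, j))) (Sum.inr (k, j))
      unfold total at h7
      simp only [Matrix.fromBlocks_apply₂₂, Matrix.blockDiagonal_apply, if_true] at h7
      exact h7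
    let D : Module.End ℂ (Fin N → Matrix (Fin n) (Fin n) ℂ) :=
      { toFun := fun X j => φ j * X j - X j * φ j
        map_add' := fun X Y => by
          funext j
          simp only [Pi.add_apply, Matrix.mul_add, Matrix.add_mul]
          abel
        map_smul' := fun c X => by
          funext j
          simp only [Pi.smul_apply, Matrix.mul_smul, Matrix.smul_mul, RingHom.id_apply, smul_sub] }
    have h8 : X ∈ Module.End.eigenspace D 0 := Module.End.mem_eigenspace_iff.2 (by
      rw [zero_smul]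
      funext j
      show φ j * X j - X j * φ j = 0
      rw [h4, sub_self])
    have h9 : X ∈ ⨆ μ : ℂ, ⨆ _ : μ ≠ 0, Module.End.eigenspace D μ := by
      refine (Submodule.span_le.2 ?_) hX1
      rintro Z ⟨-, a, ha, hZ⟩
      have ha' : (a : ℂ) ≠ 0 := by exact_mod_cast ha.ne
      exact Submodule.mem_iSup_of_mem (a : ℂ) (Submodule.mem_iSup_of_mem ha'
        (Module.End.mem_eigenspace_iff.2 (funext fun j => hZ j)))
    exact Submodule.disjoint_def.1 (Module.End.eigenspaces_iSupIndep D 0) X h8 h9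
  rw [h2, finrank_bot, zero_add] at h1
  exact h1

/-- **The theorem.** Part 1: the sum of the dimensions `dim 𝔪^-` for separated tuples of CM points. Part 2: the number of the
denominators of CM points with `dim 𝔪^- > r` in short windows. Part 3: the number of all denominators of CM points. -/
theorem result (m n N r₀ M q s ℓ e : ℕ) (lev₀ : Fin r₀ → ℤ) (lev : Fin N → Fin n → ℤ) :
    (∃ E : ℕ, ∀ (β : Fin s → ℂ) (H : ℝ) (h w b₀ : ℕ), 1 ≤ H → (2 * H * ((h : ℝ) + w + 2)) ^ E ≤ (b₀ : ℝ) →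
    (∀ (L : ℕ) (x : Fin L → Fibres m n N r₀ ℓ), (∀ l, (x l).Valid q M e β H h w b₀) →
      (∀ l l', l ≠ l' → Separated H h (x l) (x l')) →
      ∃ ρ : Fin L → ℕ, ∑ l, ρ l ≤ s + 1 ∧ ∀ l, CMAtMost lev₀ lev (ρ l + ℓ) (x l)) ∧
    ∀ r : ℕ, ℓ ≤ r → ∃ F : Finset ℕ, F.card ≤ M * ((s + 1) / (r + 1 - ℓ)) ∧
      ∀ x : Fibres m n N r₀ ℓ, x.Valid q M e β H h w b₀ → (∀ j, ∀ c ∈ F, Far m H h (x.b j) c) →
      CMAtMost lev₀ lev r x) ∧
    ∃ k : ℕ, 0 < k ∧ ∀ (β : Fin s → ℂ) (H : ℝ) (h : ℕ), 1 ≤ H → ∃ C : ℝ, ∀ B : ℕ, 0 < B →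
      ((denominators m n N r₀ ℓ q e lev₀ lev β H h B).ncard : ℝ) ^ k ≤ C * (B : ℝ) ^ (k - 1) := by
  obtain ⟨⟨E, hE⟩, k, hk, hk2⟩ := Pool.Agent.Results.MP_eeb1a4_ag.CodimensionsNearDegenerate.result m n N r₀ M q s ℓ e lev₀ lev
  refine ⟨⟨E, fun β H h w b₀ hH hbig => ?_⟩, k, hk, fun β H h hH => ?_⟩
  · obtain ⟨h1, h2⟩ := hE β H h w b₀ hH hbig
    refine ⟨fun L x hx hsep => ?_, fun r hr => ?_⟩
    · obtain ⟨ρ, hρ, h3⟩ := h1 L x hx hsep
      exact ⟨ρ, hρ, fun l => cm_of_cod (h3 l).1⟩
    · obtain ⟨F, hF, h3⟩ := h2 r hr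
      exact ⟨F, hF, fun x hx hxF => cm_of_cod (h3 x hx hxF).1⟩
  · obtain ⟨C, hC⟩ := hk2 β H h hH
    refine ⟨C, fun B hB => le_trans ?_ (hC B hB)⟩
    have hfin : (Pool.Agent.Results.MP_eeb1a4_ag.CodimensionsNearDegenerate.exceptional m n N r₀ ℓ q e lev₀ lev β H h B).Finite :=
      (Set.finite_Iic B).subset fun b hb => hb.1
    have hle := Set.ncard_le_ncard (s := denominators m n N r₀ ℓ q e lev₀ lev β H h B)
      (fun b hb => by
        obtain ⟨hb1, x, hx1, hx2, hx3⟩ := hb
        exact ⟨hb1, x, hx1, hx2, fun h4 => hx3 (cm_of_cod h4.1)⟩) hfin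
    exact pow_le_pow_left₀ (by positivity) (by exact_mod_cast hle) k

end Pool.Agent.Results.MP_cb3775_ag.CMPointsNearDegenerate
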